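import Pool.Agent.H29.EX.Targets

/-! Module DFR of the board `ex_modules`. -/

set_option autoImplicit false

open Complex MeasureTheory Set

namespace Pool.Agent.H5.EX

open Pool.Agent.H29.EX Pool.Agent.H25.DL Pool.Agent.H25.DP

theorem bq_prF (P Q : LF) (a τ : ℝ) (ha : 0 < a) (h1 : a ≠ 1) (p : ℕ) :
    bq (prF P Q a τ ha).f a p = (∑ i, P.h i p) * (p : ℂ) ^ (-((τ : ℂ) * I)) := by
  unfold bq
  rw [Fintype.sum_sum_type]
  have hr : ∀ x : Σ j : (prF P Q a τ ha).J, Fin ((prF P Q a τ ha).q j).L.n,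
      (if ((prF P Q a τ ha).f (Sum.inr x)).r = a then
        ((prF P Q a τ ha).f (Sum.inr x)).c p *
          (p : ℂ) ^ (-(((prF P Q a τ ha).f (Sum.inr x)).τ * I) : ℂ) else 0) = 0 := by
    intro x
    rw [if_neg]
    exact fun h => h1 h.symm
  rw [Finset.sum_congr rfl (fun x (_ : x ∈ (Finset.univ : Finset
    (Σ j : (prF P Q a τ ha).J, Fin ((prF P Q a τ ha).q j).L.n))) => hr x), Finset.sum_const_zero,
    add_zero]
  rw [Fintype.sum_sigma]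
  have hl : ∀ (j : Unit) (k : Fin P.n),
      (if ((prF P Q a τ ha).f (Sum.inl ⟨j, k⟩)).r = a then
        ((prF P Q a τ ha).f (Sum.inl ⟨j, k⟩)).c p *
          (p : ℂ) ^ (-(((prF P Q a τ ha).f (Sum.inl ⟨j, k⟩)).τ * I) : ℂ) else 0) =
        P.h k p * (p : ℂ) ^ (-((τ : ℂ) * I)) := by
    intro j k
    have hr1 : ((prF P Q a τ ha).f (Sum.inl ⟨j, k⟩)).r = a := rfl
    rw [if_pos hr1]
    rfl
  have h2 : ∑ x : Unit, ∑ k : Fin P.n, P.h k p * (p : ℂ) ^ (-((τ : ℂ) * I)) =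
      (∑ i, P.h i p) * (p : ℂ) ^ (-((τ : ℂ) * I)) := by
    simp [Finset.sum_mul]
  rw [← h2]
  exact Finset.sum_congr rfl fun j _ => Finset.sum_congr rfl fun k _ => hl j k

theorem norm_bq_prF (P Q : LF) (a τ : ℝ) (ha : 0 < a) (h1 : a ≠ 1) (p : ℕ) (hp : p.Prime) :
    ‖bq (prF P Q a τ ha).f a p‖ = ‖∑ i, P.h i p‖ := by
  rw [bq_prF P Q a τ ha h1 p, norm_mul]
  have h2 : ‖(p : ℂ) ^ (-((τ : ℂ) * I))‖ = 1 := by
    rw [Complex.norm_natCast_cpow_of_pos hp.pos]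
    simp
  rw [h2, mul_one]

theorem pf_DFR : T_DFR := by
  intro P Q a τ ha h1 hP x₁ x₂ ε hx₁ hx₂ hε
  obtain ⟨T₀, hT₀⟩ := hP x₁ x₂ ε hx₁ hx₂ hε
  refine ⟨T₀, fun T hT => ?_⟩
  obtain ⟨X, hX1, hX2, hX3⟩ := hT₀ T hT
  refine ⟨X, hX1, hX2, hX3.trans (le_of_eq ?_)⟩
  refine Finset.sum_congr rfl fun p hp => ?_
  rw [norm_bq_prF P Q a τ ha h1 p (Finset.mem_filter.1 hp).2]

end Pool.Agent.H5.EX
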