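import Pool.Agent.H29.EX.Targets

/-! Module KAR of the board `ex_modules`. -/

set_option autoImplicit false

open Complex MeasureTheory Set Filter Topology

namespace Pool.Agent.H5.EX

open Pool.Agent.H29.EX Pool.Agent.H25.DL Pool.Agent.H25.DP

/-- summability of the Dirichlet series with bounded weights -/
theorem kar_summable (w : ℕ → ℝ) (C : ℝ) (hw : ∀ n, 0 ≤ w n) (hC : ∀ n, w n ≤ C) (L s : ℝ)
    (hL : 0 < L) (hs : 0 < s) :
    Summable (fun p : Nat.Primes => w p * Real.log p * (p : ℝ) ^ (-(1 + s / L) : ℝ)) := by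
  have hsL : 0 < s / L := div_pos hs hL
  have h1 : Summable (fun p : Nat.Primes => (p : ℝ) ^ (-(1 + s / L / 2) : ℝ)) :=
    Nat.Primes.summable_rpow.2 (by linarith)
  refine Summable.of_nonneg_of_le (fun p => ?_) (fun p => ?_) (h1.mul_left (C / (s / L / 2)))
  · have hp1 : (1 : ℝ) ≤ (p : ℝ) := by exact_mod_cast p.2.one_lt.le
    exact mul_nonneg (mul_nonneg (hw _) (Real.log_nonneg hp1)) (Real.rpow_nonneg (by linarith) _)
  · have hp1 : (1 : ℝ) ≤ (p : ℝ) := by exact_mod_cast p.2.one_lt.le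
    have hp0 : (0 : ℝ) < (p : ℝ) := by linarith
    have hlog : Real.log p ≤ (p : ℝ) ^ (s / L / 2) / (s / L / 2) :=
      Real.log_le_rpow_div hp0.le (by linarith)
    have hl0 : 0 ≤ Real.log p := Real.log_nonneg hp1
    calc w p * Real.log p * (p : ℝ) ^ (-(1 + s / L) : ℝ)
        ≤ C * ((p : ℝ) ^ (s / L / 2) / (s / L / 2)) * (p : ℝ) ^ (-(1 + s / L) : ℝ) := by
          refine mul_le_mul_of_nonneg_right ?_ (Real.rpow_nonneg hp0.le _)
          exact mul_le_mul (hC _) hlog hl0 ((hw 0).trans (hC 0))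
      _ = C / (s / L / 2) * ((p : ℝ) ^ (s / L / 2) * (p : ℝ) ^ (-(1 + s / L) : ℝ)) := by ring
      _ = C / (s / L / 2) * (p : ℝ) ^ (-(1 + s / L / 2) : ℝ) := by
          rw [← Real.rpow_add hp0]
          congr 2
          ring

theorem kar_int_poly (P : Polynomial ℝ) :
    ∫ y in (0 : ℝ)..1, P.eval y = ∑ j ∈ Finset.range (P.natDegree + 1), P.coeff j * (1 / (j + 1)) := by
  simp_rw [Polynomial.eval_eq_sum_range]
  rw [intervalIntegral.integral_finsetSum]
  · refine Finset.sum_congr rfl fun j _ => ?_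
    rw [intervalIntegral.integral_const_mul, integral_pow]
    simp
  · intro j _
    exact (by fun_prop : Continuous fun y : ℝ => P.coeff j * y ^ j).intervalIntegrable _ _

theorem pf_KAR : T_KAR := by
  intro w κ hκ hw hwC hlim x₁ x₂ hx₁ hx₂
  obtain ⟨C, hC⟩ := hwC
  set a : ℝ := Real.exp (-x₂) with ha
  set b : ℝ := Real.exp (-x₁) with hb
  have hab : a < b := Real.exp_lt_exp.2 (by linarith)
  have ha0 : 0 < a := Real.exp_pos _
  have hb1 : b < 1 := by
    rw [hb, Real.exp_lt_one_iff]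
    linarith
  set ψ : ℝ → ℝ := fun y => max 0 (min (y - a) (b - y)) with hψ
  have hψc : Continuous ψ := by fun_prop
  have hψ0 : ∀ y, 0 ≤ ψ y := fun y => le_max_left _ _
  have hψ1 : ∀ y, ψ y ≤ 1 := by
    intro y
    refine max_le zero_le_one ?_
    rcases le_total y b with h | h
    · exact (min_le_left _ _).trans (by linarith)
    · exact (min_le_right _ _).trans (by linarith)
  have hψz : ∀ y, ψ y ≠ 0 → a < y ∧ y < b := by
    intro y hy
    by_contra hcon
    apply hy
    refine max_eq_left ?_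
    by_cases h1 : a < y
    · have h2 : b ≤ y := by
        by_contra h3
        exact hcon ⟨h1, not_le.1 h3⟩
      exact (min_le_right _ _).trans (by linarith)
    · exact (min_le_left _ _).trans (by linarith)
  have hI : 0 < ∫ y in (0 : ℝ)..1, ψ y := by
    refine intervalIntegral.integral_pos zero_lt_one hψc.continuousOn (fun y _ => hψ0 y)
      ⟨(a + b) / 2, ⟨by linarith, by linarith⟩, ?_⟩
    refine lt_max_of_lt_right (lt_min (by linarith) (by linarith))
  set I := ∫ y in (0 : ℝ)..1, ψ y with hIdef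
  obtain ⟨P, hP⟩ := exists_polynomial_near_of_continuousOn 0 1 ψ hψc.continuousOn (I / 4)
    (by linarith)
  have hPI : I - I / 4 ≤ ∫ y in (0 : ℝ)..1, P.eval y := by
    have h1 : ∫ y in (0 : ℝ)..1, (ψ y - I / 4) = I - I / 4 := by
      rw [intervalIntegral.integral_sub (hψc.intervalIntegrable _ _)
        (intervalIntegrable_const), ← hIdef]
      simp
    rw [← h1]
    refine intervalIntegral.integral_mono_on zero_le_one
      ((hψc.sub continuous_const).intervalIntegrable _ _)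
      (P.continuous.intervalIntegrable _ _) (fun y hy => ?_)
    have := (abs_lt.1 (hP y hy)).1
    linarith
  rw [kar_int_poly] at hPI
  -- the limit
  have hlim2 : Tendsto (fun L : ℝ => (∑ j ∈ Finset.range (P.natDegree + 1), P.coeff j *
      ((∑' p : Nat.Primes, w p * Real.log p * (p : ℝ) ^ (-(1 + ((j + 1 : ℕ) : ℝ) / L) : ℝ)) / L)) -
      I / 4 * ((∑' p : Nat.Primes, w p * Real.log p * (p : ℝ) ^ (-(1 + ((1 : ℕ) : ℝ) / L) : ℝ)) / L))
      atTop (𝓝 ((∑ j ∈ Finset.range (P.natDegree + 1), P.coeff j * (κ / ((j + 1 : ℕ) : ℝ))) -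
        I / 4 * (κ / ((1 : ℕ) : ℝ)))) := by
    refine Tendsto.sub (tendsto_finsetSum _ fun j _ => ?_) ?_
    · exact (hlim (j + 1) (by omega)).const_mul _
    · exact (hlim 1 le_rfl).const_mul _
  have hval : κ * (I / 2) ≤ (∑ j ∈ Finset.range (P.natDegree + 1),
      P.coeff j * (κ / ((j + 1 : ℕ) : ℝ))) - I / 4 * (κ / ((1 : ℕ) : ℝ)) := by
    have h1 : ∑ j ∈ Finset.range (P.natDegree + 1), P.coeff j * (κ / ((j + 1 : ℕ) : ℝ)) =
        κ * ∑ j ∈ Finset.range (P.natDegree + 1), P.coeff j * (1 / (j + 1)) := by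
      rw [Finset.mul_sum]
      refine Finset.sum_congr rfl fun j _ => ?_
      push_cast
      ring
    rw [h1]
    have h2 := mul_le_mul_of_nonneg_left hPI hκ.le
    simp only [Nat.cast_one, div_one]
    nlinarith
  have hev : ∀ᶠ L : ℝ in atTop, κ * (I / 4) < (∑ j ∈ Finset.range (P.natDegree + 1), P.coeff j *
      ((∑' p : Nat.Primes, w p * Real.log p * (p : ℝ) ^ (-(1 + ((j + 1 : ℕ) : ℝ) / L) : ℝ)) / L)) -
      I / 4 * ((∑' p : Nat.Primes, w p * Real.log p * (p : ℝ) ^ (-(1 + ((1 : ℕ) : ℝ) / L) : ℝ)) / L) :=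
    hlim2.eventually_const_lt (lt_of_lt_of_le (by nlinarith) hval)
  obtain ⟨L₀, hL₀⟩ := (hev.and (eventually_gt_atTop (0 : ℝ))).exists_forall_of_atTop
  refine ⟨κ * (I / 4), Real.exp L₀, by positivity, fun T hT => ?_⟩
  have hT0 : 0 < T := (Real.exp_pos _).trans_le hT
  have hTL : L₀ ≤ Real.log T := (Real.le_log_iff_exp_le hT0).2 hT
  obtain ⟨hmain, hL⟩ := hL₀ (Real.log T) hTL
  set L := Real.log T with hLdef
  -- the termwise inequality
  set W : Finset ℕ := (Finset.Ioc ⌊T ^ x₁⌋₊ ⌊T ^ x₂⌋₊).filter Nat.Prime with hW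
  set g : Nat.Primes → ℝ := fun p => (∑ j ∈ Finset.range (P.natDegree + 1), P.coeff j *
      (w p * Real.log p * (p : ℝ) ^ (-(1 + ((j + 1 : ℕ) : ℝ) / L) : ℝ))) -
      I / 4 * (w p * Real.log p * (p : ℝ) ^ (-(1 + ((1 : ℕ) : ℝ) / L) : ℝ)) with hg
  have hsum : ∀ s : ℕ, 1 ≤ s → Summable (fun p : Nat.Primes =>
      w p * Real.log p * (p : ℝ) ^ (-(1 + (s : ℝ) / L) : ℝ)) := fun s hs =>
    kar_summable w C hw hC L s hL (by exact_mod_cast hs)
  have hterm : ∀ p : Nat.Primes, g p ≤ if (p : ℕ) ∈ W then w p * Real.log p / p else 0 := by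
    intro p
    have hp1 : (1 : ℝ) < (p : ℝ) := by exact_mod_cast p.2.one_lt
    have hp0 : (0 : ℝ) < (p : ℝ) := by linarith
    have hl0 : 0 ≤ Real.log p := Real.log_nonneg hp1.le
    set y : ℝ := (p : ℝ) ^ (-(1 / L) : ℝ) with hy
    have hy0 : 0 < y := Real.rpow_pos_of_pos hp0 _
    have hy1 : y ≤ 1 := Real.rpow_le_one_of_one_le_of_nonpos hp1.le (by
      have : 0 < 1 / L := by positivity
      linarith)
    have hpow : ∀ j : ℕ, (p : ℝ) ^ (-(1 + ((j + 1 : ℕ) : ℝ) / L) : ℝ) = (p : ℝ)⁻¹ * y * y ^ j := by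
      intro j
      rw [hy, ← Real.rpow_natCast, ← Real.rpow_mul hp0.le, ← Real.rpow_neg_one,
        ← Real.rpow_add hp0, ← Real.rpow_add hp0]
      congr 1
      push_cast
      ring
    have h1 : (p : ℝ) ^ (-(1 + ((1 : ℕ) : ℝ) / L) : ℝ) = (p : ℝ)⁻¹ * y := by
      have := hpow 0
      simpa using this
    have hgp : g p = w p * Real.log p * (p : ℝ)⁻¹ * y * (P.eval y - I / 4) := by
      rw [hg]
      beta_reduce
      rw [h1]
      simp only [hpow]
      rw [Polynomial.eval_eq_sum_range, mul_sub, Finset.mul_sum]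
      congr 1
      · refine Finset.sum_congr rfl fun j _ => ?_
        ring
      · ring
    have hA : 0 ≤ w p * Real.log p * (p : ℝ)⁻¹ :=
      mul_nonneg (mul_nonneg (hw _) hl0) (inv_nonneg.2 hp0.le)
    have hPy : P.eval y - I / 4 ≤ ψ y := by
      have := (abs_lt.1 (hP y ⟨hy0.le, hy1⟩)).2
      linarith
    have hle : g p ≤ w p * Real.log p * (p : ℝ)⁻¹ * (y * ψ y) := by
      rw [hgp]
      have := mul_le_mul_of_nonneg_left hPy (mul_nonneg hA hy0.le)
      nlinarith [this]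
    refine hle.trans ?_
    by_cases hz : ψ y = 0
    · rw [hz, mul_zero, mul_zero]
      split_ifs
      · rw [div_eq_mul_inv]
        exact hA
      · exact le_rfl
    · obtain ⟨hay, hyb⟩ := hψz y hz
      have hyexp : y = Real.exp (-(Real.log p / L)) := by
        rw [hy, Real.rpow_def_of_pos hp0]
        congr 1
        ring
      rw [hyexp, ha, Real.exp_lt_exp] at hay
      rw [hyexp, hb, Real.exp_lt_exp] at hyb
      have h1 : x₁ * L < Real.log p := by
        rw [← lt_div_iff₀ hL]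
        linarith
      have h2 : Real.log p < x₂ * L := by
        rw [← div_lt_iff₀ hL]
        linarith
      have hTx : ∀ x : ℝ, T ^ x = Real.exp (x * L) := fun x => by
        rw [Real.rpow_def_of_pos hT0, hLdef, mul_comm]
      have hmem : (p : ℕ) ∈ W := by
        rw [hW, Finset.mem_filter, Finset.mem_Ioc]
        refine ⟨⟨?_, ?_⟩, p.2⟩
        · rw [Nat.floor_lt (Real.rpow_nonneg hT0.le _), hTx, ← Real.lt_log_iff_exp_lt hp0]
          exact h1
        · rw [Nat.le_floor_iff (Real.rpow_nonneg hT0.le _), hTx, ← Real.log_le_iff_le_exp hp0]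
          exact h2.le
      rw [if_pos hmem, div_eq_mul_inv]
      have h3 : y * ψ y ≤ 1 := mul_le_one₀ hy1 (hψ0 y) (hψ1 y)
      calc w p * Real.log p * (p : ℝ)⁻¹ * (y * ψ y) ≤ w p * Real.log p * (p : ℝ)⁻¹ * 1 :=
            mul_le_mul_of_nonneg_left h3 hA
        _ = _ := mul_one _
  have hgs : Summable g := by
    refine Summable.sub (summable_sum fun j _ => ?_) ?_
    · exact (hsum (j + 1) (by omega)).mul_left _
    · exact (hsum 1 le_rfl).mul_left _
  have htg : ∑' p, g p = (∑ j ∈ Finset.range (P.natDegree + 1), P.coeff j *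
      (∑' p : Nat.Primes, w p * Real.log p * (p : ℝ) ^ (-(1 + ((j + 1 : ℕ) : ℝ) / L) : ℝ))) -
      I / 4 * (∑' p : Nat.Primes, w p * Real.log p *
        (p : ℝ) ^ (-(1 + ((1 : ℕ) : ℝ) / L) : ℝ)) := by
    rw [hg, Summable.tsum_sub, Summable.tsum_finsetSum, tsum_mul_left]
    · congr 1
      exact Finset.sum_congr rfl fun j _ => tsum_mul_left
    · intro j _
      exact (hsum (j + 1) (by omega)).mul_left _
    · exact summable_sum fun j _ => (hsum (j + 1) (by omega)).mul_left _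
    · exact (hsum 1 le_rfl).mul_left _
  have hub : ∑' p, g p ≤ ∑ p ∈ W, w p * Real.log p / p := by
    have hnn : ∀ n ∈ W, 0 ≤ w n * Real.log n / n := by
      intro n hn
      have hn1 : (1 : ℝ) ≤ n := by exact_mod_cast (Finset.mem_filter.1 hn).2.one_lt.le
      exact div_nonneg (mul_nonneg (hw _) (Real.log_nonneg hn1)) (by linarith)
    refine hgs.tsum_le_of_sum_le fun s => ?_
    set e : Nat.Primes ↪ ℕ := ⟨fun p => (p : ℕ), Nat.Primes.coe_nat_injective⟩ with he
    have hmap : ∑ n ∈ s.map e, (if n ∈ W then w n * Real.log n / n else 0) =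
        ∑ p ∈ s, (if (p : ℕ) ∈ W then w p * Real.log p / p else 0) :=
      Finset.sum_map s e fun n => if n ∈ W then w n * Real.log n / n else 0
    calc ∑ p ∈ s, g p ≤ ∑ p ∈ s, (if (p : ℕ) ∈ W then w p * Real.log p / p else 0) :=
          Finset.sum_le_sum fun p _ => hterm p
      _ = ∑ n ∈ s.map e, (if n ∈ W then w n * Real.log n / n else 0) := hmap.symm
      _ = ∑ n ∈ (s.map e).filter (· ∈ W), w n * Real.log n / n := by
          rw [Finset.sum_filter]
      _ ≤ ∑ p ∈ W, w p * Real.log p / p := by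
          refine Finset.sum_le_sum_of_subset_of_nonneg (fun n hn => (Finset.mem_filter.1 hn).2)
            fun n hn _ => hnn n hn
  have hfin : κ * (I / 4) * L ≤ ∑' p, g p := by
    rw [htg]
    have h1 : (∑ j ∈ Finset.range (P.natDegree + 1), P.coeff j *
      ((∑' p : Nat.Primes, w p * Real.log p * (p : ℝ) ^ (-(1 + ((j + 1 : ℕ) : ℝ) / L) : ℝ)) / L)) -
      I / 4 * ((∑' p : Nat.Primes, w p * Real.log p *
        (p : ℝ) ^ (-(1 + ((1 : ℕ) : ℝ) / L) : ℝ)) / L) =
      ((∑ j ∈ Finset.range (P.natDegree + 1), P.coeff j *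
      (∑' p : Nat.Primes, w p * Real.log p * (p : ℝ) ^ (-(1 + ((j + 1 : ℕ) : ℝ) / L) : ℝ))) -
      I / 4 * (∑' p : Nat.Primes, w p * Real.log p *
        (p : ℝ) ^ (-(1 + ((1 : ℕ) : ℝ) / L) : ℝ))) / L := by
      rw [sub_div, Finset.sum_div]
      congr 1
      · exact Finset.sum_congr rfl fun j _ => by ring
      · ring
    rw [h1, lt_div_iff₀ hL] at hmain
    exact hmain.le
  exact hfin.trans hub

end Pool.Agent.H5.EX
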