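import Pool.Agent.H98.EX.KTargets
import Pool.Agent.H47.CE.SUP

/-!
Module SUX: the kernel with the low boxes (copy of module SUP of helper47).
-/

set_option autoImplicit false

open MeasureTheory ProbabilityTheory Filter Topology
open scoped ENNReal
open Pool.Agent.H95 Pool.Agent.H95.Cop Pool.Agent.H96.Cop
open Pool.Agent.H99.CE (wq BX w1 cq tb Gf Hf Kd ld mx ab eb TT FL EE lg Reg)
open Pool.Agent.H98.EX Pool.Agent.H47.CE

namespace Pool.Agent.H5.EX

theorem sux_half {α : ℝ} (h0 : 1 / 2 ≤ α) (h1 : α ≤ 1) {n D : ℕ} (hn : D ≤ 2 * n) :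
    wq α n ≤ 9 * wq α D := by
  unfold wq
  obtain ⟨a, ha⟩ : ∃ a : ℕ, a = max (n - 1) 1 := ⟨_, rfl⟩
  obtain ⟨b, hb⟩ : ∃ b : ℕ, b = max (D - 1) 1 := ⟨_, rfl⟩
  rw [← ha, ← hb]
  have ha1 : 1 ≤ a := by omega
  have hb1 : 1 ≤ b := by omega
  have hab : b ≤ 3 * a := by omega
  have ha0 : (0 : ℝ) < a := by exact_mod_cast ha1
  have hb0 : (0 : ℝ) < b := by exact_mod_cast hb1
  have hab' : (b : ℝ) ≤ 3 * a := by exact_mod_cast hab
  have h3 : (3 : ℝ) ^ (1 + α) ≤ 9 := by
    have h4 : (3 : ℝ) ^ (1 + α) ≤ (3 : ℝ) ^ (2 : ℝ) :=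
      Real.rpow_le_rpow_of_exponent_le (by norm_num) (by linarith)
    refine h4.trans (le_of_eq ?_)
    norm_num
  have h2 : (b : ℝ) ^ (1 + α) ≤ 9 * (a : ℝ) ^ (1 + α) := by
    calc (b : ℝ) ^ (1 + α) ≤ (3 * (a : ℝ)) ^ (1 + α) :=
          Real.rpow_le_rpow hb0.le hab' (by linarith)
      _ = (3 : ℝ) ^ (1 + α) * (a : ℝ) ^ (1 + α) := Real.mul_rpow (by norm_num) ha0.le
      _ ≤ 9 * (a : ℝ) ^ (1 + α) := mul_le_mul_of_nonneg_right h3 (by positivity)
  rw [Real.rpow_neg ha0.le, Real.rpow_neg hb0.le]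
  have h3 : 0 < (a : ℝ) ^ (1 + α) := by positivity
  have h4 : 0 < (b : ℝ) ^ (1 + α) := by positivity
  rw [← div_eq_mul_inv, inv_eq_one_div, div_le_div_iff₀ h3 h4]
  linarith

theorem sux_conv {α : ℝ} (h0 : 1 / 2 ≤ α) (h1 : α ≤ 1) (D : ℕ) :
    ∑ i ∈ Finset.Ico 1 D, wq α i * wq α (D - i) ≤ 72 * wq α D := by
  have hα : 0 < α := by linarith
  have h2 : ∑ i ∈ Finset.Ico 1 D, wq α i * wq α (D - i) ≤
      ∑ i ∈ Finset.Ico 1 D, 9 * wq α D * (wq α i + wq α (D - i)) := by
    refine Finset.sum_le_sum fun i hi => ?_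
    rw [Finset.mem_Ico] at hi
    have a1 := wq_nonneg α i
    have a2 := wq_nonneg α (D - i)
    have a3 := wq_nonneg α D
    rcases le_total D (2 * i) with h | h
    · have h3 := sux_half h0 h1 h
      nlinarith [mul_le_mul_of_nonneg_right h3 a2, mul_nonneg a3 a1]
    · have h3 := sux_half h0 h1 (n := D - i) (D := D) (by omega)
      nlinarith [mul_le_mul_of_nonneg_left h3 a1, mul_nonneg a3 a2]
  refine h2.trans ?_
  rw [← Finset.mul_sum, Finset.sum_add_distrib]
  have h3 : ∑ i ∈ Finset.Ico 1 D, wq α (D - i) = ∑ i ∈ Finset.Ico 1 D, wq α i := by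
    refine Finset.sum_nbij' (fun i => D - i) (fun i => D - i) ?_ ?_ ?_ ?_ ?_
    · intro i hi
      rw [Finset.mem_Ico] at hi ⊢
      omega
    · intro i hi
      rw [Finset.mem_Ico] at hi ⊢
      omega
    · intro i hi
      rw [Finset.mem_Ico] at hi
      show D - (D - i) = i
      omega
    · intro i hi
      rw [Finset.mem_Ico] at hi
      show D - (D - i) = i
      omega
    · intro i _
      rfl
  rw [h3]
  have h4 := wq_sum hα D
  have h5 : 1 / α ≤ 2 := by
    rw [div_le_iff₀ hα]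
    linarith
  have h6 := wq_nonneg α D
  have h7 : ∑ i ∈ Finset.Ico 1 D, wq α i ≤ 4 := by linarith
  nlinarith [mul_nonneg h6 (sub_nonneg.2 h7)]

theorem pf_SUX : T_SUX := by
  intro α t δ P η e M h0 h1 ht hδ hP he hη hη1 hPδ D hD
  have hα : 0 < α := by linarith
  have hw := wq_nonneg α D
  have hconv : ENNReal.ofReal (e * P * t) *
      ∑ i ∈ Finset.Ico 1 D, Kd α t η M i * ld α t δ M (D - i) ≤
      ENNReal.ofReal (72 * e * P * wq α D / ((1 + δ) * t)) := by
    have h2 : ∑ i ∈ Finset.Ico 1 D, Kd α t η M i * ld α t δ M (D - i) ≤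
        ENNReal.ofReal (72 * wq α D / ((1 + δ) * t ^ 2)) := by
      have h3 : ∑ i ∈ Finset.Ico 1 D, Kd α t η M i * ld α t δ M (D - i) ≤
          ∑ i ∈ Finset.Ico 1 D, ENNReal.ofReal (wq α i * wq α (D - i) / ((1 + δ) * t ^ 2)) := by
        refine Finset.sum_le_sum fun i hi => ?_
        have a1 := wq_nonneg α i
        have a2 := wq_nonneg α (D - i)
        have e1 : Kd α t η M i ≤ ENNReal.ofReal (wq α i / t) := by
          unfold Kd
          apply ENNReal.ofReal_le_ofReal
          have a3 : 0 ≤ wq α i / t := by positivity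
          split_ifs
          · linarith
          · exact mul_le_of_le_one_right a3 hη1
        have e2 : ld α t δ M (D - i) ≤ ENNReal.ofReal (wq α (D - i) / ((1 + δ) * t)) := by
          unfold ld
          split_ifs
          · exact le_rfl
          · exact zero_le
        refine (mul_le_mul' e1 e2).trans ?_
        rw [← ENNReal.ofReal_mul (by positivity)]
        apply ENNReal.ofReal_le_ofReal
        refine le_of_eq ?_
        field_simp
      refine h3.trans ?_
      rw [← ENNReal.ofReal_sum_of_nonneg (fun i _ => by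
        have a1 := wq_nonneg α i
        have a2 := wq_nonneg α (D - i)
        positivity), ← Finset.sum_div]
      apply ENNReal.ofReal_le_ofReal
      exact div_le_div_of_nonneg_right (sux_conv h0 h1 D) (by positivity)
    refine (mul_le_mul' le_rfl h2).trans ?_
    rw [← ENNReal.ofReal_mul (by positivity)]
    apply ENNReal.ofReal_le_ofReal
    refine le_of_eq ?_
    field_simp
  refine (add_le_add le_rfl hconv).trans ?_
  have hden : 0 < (1 + δ) * t := by positivity
  by_cases hDM : D ≤ M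
  · unfold ld Kd
    rw [if_pos hDM, if_pos hDM, ← ENNReal.ofReal_add (by positivity) (by positivity), mul_one]
    apply ENNReal.ofReal_le_ofReal
    rw [← add_div, div_le_div_iff₀ hden ht]
    have h2 : wq α D * (72 * e * P) ≤ wq α D * δ := mul_le_mul_of_nonneg_left hPδ hw
    nlinarith
  · unfold ld Kd
    rw [if_neg hDM, if_neg hDM, zero_add]
    apply ENNReal.ofReal_le_ofReal
    rw [div_mul_eq_mul_div, div_le_div_iff₀ hden ht]
    have h2 : wq α D * (72 * e * P) ≤ wq α D * η := mul_le_mul_of_nonneg_left hη hw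
    have h3 : 0 ≤ 72 * e * P := by positivity
    have h4 : 0 ≤ η := h3.trans hη
    have h5 : 0 ≤ wq α D * η * δ := by positivity
    have h6 : 72 * e * P * wq α D ≤ wq α D * η * (1 + δ) := by nlinarith
    have h7 := mul_le_mul_of_nonneg_right h6 ht.le
    linarith

end Pool.Agent.H5.EX
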